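import Mathlib
import Pool.Agent.Helper87.UD.Defs

/-!
# Numerics for the half-plane gadget (project UD, MP_1243c9_co)
-/

set_option autoImplicit false

namespace Pool.Agent.Helper75.UD

/-- `A (h + 1) ≤ 2 ^ h` for a suitable `h` -/
theorem exists_pow (A : ℕ) : ∃ h : ℕ, A * (h + 1) ≤ 2 ^ h := by
  refine ⟨2 * A + 4, ?_⟩
  have h1 : A + 1 ≤ 2 ^ A := Nat.lt_two_pow_self
  have h2 : 2 ^ (2 * A + 4) = 16 * (2 ^ A * 2 ^ A) := by
    rw [pow_add, two_mul, pow_add]; ring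
  rw [h2]
  have h3 : (A + 1) * (A + 1) ≤ 2 ^ A * 2 ^ A := Nat.mul_le_mul h1 h1
  nlinarith

/-- NUMERICS. `n ≤ 2 ^ e` for the number `n` of vertices, `R = M g ^ 2` positions; `K C e ≤ R` and
`B` is larger than `K R ^ 2 (D + 2)`. Here `D = 2 g ^ 2`. -/
theorem numerics (C K : ℕ) (hC : 1 ≤ C) (hK : 1 ≤ K) : ∃ g M B e : ℕ, 1 ≤ g ∧ 1 ≤ M ∧ 1 ≤ B ∧
    K * (M * (g * g)) ^ 2 * (2 * (g * g) + 2) ≤ B ∧
    4 * (M * (g * g)) * ((2 * (g * g) + 2) ^ (g * g + 1) * B ^ (2 * (M * g))) ≤ 2 ^ e ∧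
    K * (C * e) ≤ M * (g * g) := by
  -- constants
  obtain ⟨c, hc⟩ : ∃ c, c = 8 * (K * C) := ⟨_, rfl⟩
  obtain ⟨c1, hc1⟩ : ∃ c1, c1 = 4 * K * c ^ 2 + 1 := ⟨_, rfl⟩
  obtain ⟨A, hA⟩ : ∃ A, A = 2 * (K * C) * (19 + 2 * c1) := ⟨_, rfl⟩
  obtain ⟨h, hh⟩ := exists_pow A
  have hKC : 1 ≤ K * C := Nat.mul_pos hK hC
  have hc8 : 8 ≤ c := by omega
  set G := 2 ^ h with hG
  have hG1 : 1 ≤ G := Nat.one_le_two_pow
  have hhG : h + 1 ≤ G := Nat.lt_two_pow_self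
  have hGG : G * G = 2 ^ (2 * h) := by rw [hG, two_mul, pow_add]
  obtain ⟨M, hM⟩ : ∃ M, M = c * (h + 1) := ⟨_, rfl⟩
  have hM1 : h + 1 ≤ M := by rw [hM]; nlinarith
  have hMpos : 1 ≤ M := by omega
  obtain ⟨b, hb⟩ : ∃ b, b = 8 * h + c1 := ⟨_, rfl⟩
  obtain ⟨e, he⟩ : ∃ e, e = (2 + (M + 2 * h)) + ((2 * h + 2) * (G * G + 1) + b * (2 * (M * G))) :=
    ⟨_, rfl⟩
  have hD : 2 * (G * G) + 2 ≤ 2 ^ (2 * h + 2) := by
    have : 1 ≤ G * G := Nat.mul_pos hG1 hG1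
    rw [pow_add, ← hGG]
    omega
  have hBbig : K * (M * (G * G)) ^ 2 * (2 * (G * G) + 2) ≤ 2 ^ b := by
    have h1 : M * (G * G) ≤ c * (G * (G * G)) := by
      rw [hM, mul_assoc]
      exact Nat.mul_le_mul_left _ (Nat.mul_le_mul_right _ hhG)
    have h2 : (M * (G * G)) ^ 2 ≤ (c * (G * (G * G))) ^ 2 := Nat.pow_le_pow_left h1 2
    have h3 : 2 * (G * G) + 2 ≤ 4 * (G * G) := by
      have : 1 ≤ G * G := Nat.mul_pos hG1 hG1
      omega
    have h4 : K * (M * (G * G)) ^ 2 * (2 * (G * G) + 2) ≤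
        K * (c * (G * (G * G))) ^ 2 * (4 * (G * G)) :=
      Nat.mul_le_mul (Nat.mul_le_mul_left _ h2) h3
    have h5 : K * (c * (G * (G * G))) ^ 2 * (4 * (G * G)) = (4 * K * c ^ 2) * G ^ 8 := by ring
    have h6 : G ^ 8 = 2 ^ (8 * h) := by rw [hG, ← pow_mul, mul_comm]
    have h7 : 4 * K * c ^ 2 < 2 ^ (4 * K * c ^ 2) := Nat.lt_two_pow_self
    have h8 : 2 ^ b = 2 * (2 ^ (4 * K * c ^ 2) * 2 ^ (8 * h)) := by
      rw [hb, hc1, ← pow_add, ← pow_succ']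
      congr 1; ring
    have h10 : (4 * K * c ^ 2) * 2 ^ (8 * h) ≤ 2 ^ (4 * K * c ^ 2) * 2 ^ (8 * h) :=
      Nat.mul_le_mul_right _ h7.le
    rw [h5, h6] at h4
    rw [h8]
    omega
  refine ⟨G, M, 2 ^ b, e, hG1, hMpos, Nat.one_le_two_pow, hBbig, ?_, ?_⟩
  · have h1 : M * (G * G) ≤ 2 ^ (M + 2 * h) := by
      rw [pow_add, ← hGG]
      exact Nat.mul_le_mul_right _ (Nat.lt_two_pow_self).le
    have h2 : (2 * (G * G) + 2) ^ (G * G + 1) ≤ 2 ^ ((2 * h + 2) * (G * G + 1)) := by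
      rw [pow_mul]; exact Nat.pow_le_pow_left hD _
    have h3 : (2 ^ b) ^ (2 * (M * G)) = 2 ^ (b * (2 * (M * G))) := by rw [← pow_mul]
    have h4 : 2 ^ e = 2 ^ 2 * 2 ^ (M + 2 * h) * (2 ^ ((2 * h + 2) * (G * G + 1)) *
        2 ^ (b * (2 * (M * G)))) := by
      rw [he, pow_add 2 (2 + (M + 2 * h)), pow_add 2 2, pow_add 2 ((2 * h + 2) * (G * G + 1))]
    rw [h3, h4]
    exact Nat.mul_le_mul (Nat.mul_le_mul (by norm_num) h1) (Nat.mul_le_mul_right _ h2)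
  · -- K C e ≤ M G^2
    have h1 : (2 * h + 2) * (G * G + 1) ≤ 4 * (h + 1) * (G * G) := by
      have : 1 ≤ G * G := Nat.mul_pos hG1 hG1
      nlinarith
    have h2 : 2 * (K * C * ((2 * h + 2) * (G * G + 1))) ≤ M * (G * G) := by
      calc 2 * (K * C * ((2 * h + 2) * (G * G + 1))) ≤ 2 * (K * C * (4 * (h + 1) * (G * G))) := by
            gcongr
        _ = c * (h + 1) * (G * G) := by rw [hc]; ring
        _ = M * (G * G) := by rw [hM]
    have h3 : 2 * (K * C * (2 + (M + 2 * h) + b * (2 * (M * G)))) ≤ M * (G * G) := by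
      have h4 : 2 + (M + 2 * h) ≤ 3 * M := by omega
      have h5 : b ≤ (8 + c1) * (h + 1) := by rw [hb]; nlinarith
      have h6 : 2 + (M + 2 * h) + b * (2 * (M * G)) ≤ M * (G * ((19 + 2 * c1) * (h + 1))) := by
        have h7 : 3 * M ≤ M * (G * (3 * (h + 1))) := by
          have : 1 ≤ G * (h + 1) := Nat.mul_pos hG1 (by omega)
          calc 3 * M = M * (3 * 1) := by ring
            _ ≤ M * (3 * (G * (h + 1))) := by gcongr
            _ = _ := by ring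
        have h8 : b * (2 * (M * G)) ≤ (8 + c1) * (h + 1) * (2 * (M * G)) := Nat.mul_le_mul_right _ h5
        calc 2 + (M + 2 * h) + b * (2 * (M * G)) ≤ M * (G * (3 * (h + 1))) +
              (8 + c1) * (h + 1) * (2 * (M * G)) := by omega
          _ = M * (G * ((19 + 2 * c1) * (h + 1))) := by ring
      calc 2 * (K * C * (2 + (M + 2 * h) + b * (2 * (M * G)))) ≤
            2 * (K * C * (M * (G * ((19 + 2 * c1) * (h + 1))))) := by gcongr
        _ = M * (G * (A * (h + 1))) := by rw [hA]; ring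
        _ ≤ M * (G * G) := by gcongr
    have h9 : 2 * (K * (C * e)) = 2 * (K * C * ((2 * h + 2) * (G * G + 1))) +
        2 * (K * C * (2 + (M + 2 * h) + b * (2 * (M * G)))) := by
      rw [he]; ring
    omega

open Pool.Agent.Helper87.UD in
theorem card_le (M g D B : ℕ) (hD : 1 ≤ D) (hM : 1 ≤ M) (hg : 1 ≤ g) :
    Fintype.card (Pt M g D B) + Fintype.card (Nm M g D B) ≤
      2 * (M * (g * g)) * ((D + 2) ^ (g * g + 1) * B ^ (2 * (M * g))) := by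
  simp only [Fintype.card_prod, Fintype.card_pi, Fintype.card_fin, Finset.prod_const,
    Finset.card_univ]
  have hB : ((B ^ g) ^ M) * ((B ^ g) ^ M) = B ^ (2 * (M * g)) := by
    rw [← pow_mul, ← pow_add]; congr 1; ring
  have hg2 : ∀ x : ℕ, (x ^ g) ^ g = x ^ (g * g) := fun x => by rw [← pow_mul]
  have h3 : 1 ≤ M * (g * g) := Nat.mul_pos hM (Nat.mul_pos hg hg)
  have h1 : (D ^ g) ^ g * ((B ^ g) ^ M * (B ^ g) ^ M) ≤
      M * (g * g) * ((D + 2) ^ (g * g + 1) * B ^ (2 * (M * g))) := by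
    rw [hB, hg2]
    have h2 : D ^ (g * g) ≤ (D + 2) ^ (g * g + 1) :=
      (Nat.pow_le_pow_left (by omega) _).trans (Nat.pow_le_pow_right (by omega) (by omega))
    calc D ^ (g * g) * B ^ (2 * (M * g)) ≤ 1 * ((D + 2) ^ (g * g + 1) * B ^ (2 * (M * g))) := by
          rw [one_mul]; exact Nat.mul_le_mul_right _ h2
      _ ≤ _ := Nat.mul_le_mul_right _ h3
  have h4 : M * (g * (g * ((B ^ g) ^ M * ((B ^ g) ^ M * (((D + 1) ^ g) ^ g * D))))) ≤
      M * (g * g) * ((D + 2) ^ (g * g + 1) * B ^ (2 * (M * g))) := by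
    have h5 : M * (g * (g * ((B ^ g) ^ M * ((B ^ g) ^ M * (((D + 1) ^ g) ^ g * D))))) =
        M * (g * g) * ((((D + 1) ^ g) ^ g * D) * ((B ^ g) ^ M * (B ^ g) ^ M)) := by ring
    rw [h5, hB, hg2]
    apply Nat.mul_le_mul_left
    apply Nat.mul_le_mul_right
    rw [pow_succ]
    exact Nat.mul_le_mul (Nat.pow_le_pow_left (by omega) _) (by omega)
  have h6 : 2 * (M * (g * g)) * ((D + 2) ^ (g * g + 1) * B ^ (2 * (M * g))) =
      M * (g * g) * ((D + 2) ^ (g * g + 1) * B ^ (2 * (M * g))) +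
      M * (g * g) * ((D + 2) ^ (g * g + 1) * B ^ (2 * (M * g))) := by ring
  rw [h6]
  exact Nat.add_le_add h1 h4

open Pool.Agent.Helper87.UD in
/-- NUM: the final inequalities, with room. -/
theorem num (C : ℕ) : ∃ M g D B : ℕ, 0 < M ∧ 0 < g ∧ 0 < D ∧ 0 < B ∧ 2 * g ^ 2 ≤ D ∧
    1000 * M * g ^ 2 * (D + 2) * Real.log (((Fintype.card (Pt M g D B) +
      Fintype.card (Nm M g D B) + 1) ^ C + 1 : ℕ) : ℝ) ≤ B * Real.log 2 ∧
    Real.log (((Fintype.card (Pt M g D B) + Fintype.card (Nm M g D B) + 1) ^ C + 1 : ℕ) : ℝ) <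
      M * g ^ 2 * Real.log 2 / 100 := by
  obtain ⟨g, M, B, e, hg, hM, hB, h1, h2, h3⟩ := numerics (C + 1) 1000 (by omega) (by norm_num)
  refine ⟨M, g, 2 * (g * g), B, hM, hg, Nat.mul_pos (by norm_num) (Nat.mul_pos hg hg), hB,
    by rw [sq], ?_⟩
  have hgg : 1 ≤ g * g := Nat.mul_pos hg hg
  have hcard := card_le M g (2 * (g * g)) B (by omega) hM hg
  set n := Fintype.card (Pt M g (2 * (g * g)) B) + Fintype.card (Nm M g (2 * (g * g)) B) with hn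
  have hX : 1 ≤ M * (g * g) * ((2 * (g * g) + 2) ^ (g * g + 1) * B ^ (2 * (M * g))) := by
    apply Nat.mul_pos (Nat.mul_pos hM hgg)
    exact Nat.mul_pos (Nat.pow_pos (by omega)) (Nat.pow_pos hB)
  have hn1 : n + 1 ≤ 2 ^ e := by
    refine le_trans ?_ h2
    have e1 : 4 * (M * (g * g)) * ((2 * (g * g) + 2) ^ (g * g + 1) * B ^ (2 * (M * g))) =
        2 * (M * (g * g)) * ((2 * (g * g) + 2) ^ (g * g + 1) * B ^ (2 * (M * g))) +
        2 * (M * (g * g) * ((2 * (g * g) + 2) ^ (g * g + 1) * B ^ (2 * (M * g)))) := by ring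
    rw [e1]
    omega
  have he1 : 1 ≤ e := by
    by_contra h0
    have : e = 0 := by omega
    rw [this] at h2
    have e2 : 4 * (M * (g * g)) * ((2 * (g * g) + 2) ^ (g * g + 1) * B ^ (2 * (M * g))) =
        4 * (M * (g * g) * ((2 * (g * g) + 2) ^ (g * g + 1) * B ^ (2 * (M * g)))) := by ring
    rw [e2] at h2
    omega
  have hL : (n + 1) ^ C + 1 ≤ 2 ^ ((C + 1) * e) := by
    have h4 : (n + 1) ^ C ≤ 2 ^ (C * e) := by
      calc (n + 1) ^ C ≤ (2 ^ e) ^ C := Nat.pow_le_pow_left hn1 C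
        _ = 2 ^ (C * e) := by rw [← pow_mul, mul_comm]
    have h5 : 2 ^ ((C + 1) * e) = 2 ^ (C * e) * 2 ^ e := by rw [← pow_add]; congr 1; ring
    have h6 : 2 ≤ 2 ^ e := by
      calc 2 = 2 ^ 1 := by norm_num
        _ ≤ 2 ^ e := Nat.pow_le_pow_right (by norm_num) he1
    have h7 : 1 ≤ 2 ^ (C * e) := Nat.one_le_two_pow
    rw [h5]
    nlinarith
  have hl2 : 0 < Real.log 2 := Real.log_pos (by norm_num)
  have hlog : Real.log (((n + 1) ^ C + 1 : ℕ) : ℝ) ≤ ((C + 1) * e : ℕ) * Real.log 2 := by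
    rw [← Real.log_pow]
    apply Real.log_le_log (by positivity)
    exact_mod_cast hL
  have h3R : (1000 : ℝ) * (((C + 1) * e : ℕ) : ℝ) ≤ M * g ^ 2 := by
    have : ((1000 * ((C + 1) * e) : ℕ) : ℝ) ≤ ((M * (g * g) : ℕ) : ℝ) := by exact_mod_cast h3
    push_cast at this ⊢
    nlinarith
  have h1R : (1000 : ℝ) * (M * g ^ 2) ^ 2 * (2 * (g * g) + 2) ≤ B := by
    have : ((1000 * (M * (g * g)) ^ 2 * (2 * (g * g) + 2) : ℕ) : ℝ) ≤ (B : ℝ) := by exact_mod_cast h1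
    push_cast at this ⊢
    have e3 : (1000 : ℝ) * ((M : ℝ) * (g : ℝ) ^ 2) ^ 2 * (2 * ((g : ℝ) * g) + 2) =
        1000 * ((M : ℝ) * ((g : ℝ) * g)) ^ 2 * (2 * ((g : ℝ) * g) + 2) := by ring
    rw [e3]
    exact this
  have hMR : (1 : ℝ) ≤ M := by exact_mod_cast hM
  have hgR : (1 : ℝ) ≤ g := by exact_mod_cast hg
  have hR1 : (1 : ℝ) ≤ M * g ^ 2 := by nlinarith [one_le_pow₀ hgR (n := 2)]
  set ℓ := Real.log (((n + 1) ^ C + 1 : ℕ) : ℝ) with hℓ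
  have hℓ2 : 1000 * ℓ ≤ M * g ^ 2 * Real.log 2 := by nlinarith
  constructor
  · have h8 : 1000 * (M : ℝ) * g ^ 2 * (((2 * (g * g) : ℕ) : ℝ) + 2) * ℓ =
        (M * g ^ 2 * (2 * (g * g) + 2)) * (1000 * ℓ) := by push_cast; ring
    rw [h8]
    calc (M * g ^ 2 * (2 * (g * g) + 2)) * (1000 * ℓ) ≤
          (M * g ^ 2 * (2 * (g * g) + 2)) * (M * g ^ 2 * Real.log 2) :=
          mul_le_mul_of_nonneg_left hℓ2 (by positivity)
      _ = ((M * g ^ 2) ^ 2 * (2 * (g * g) + 2)) * Real.log 2 := by ring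
      _ ≤ B * Real.log 2 := by
          apply mul_le_mul_of_nonneg_right _ hl2.le
          have : 0 ≤ ((M : ℝ) * g ^ 2) ^ 2 * (2 * (g * g) + 2) := by positivity
          nlinarith
  · have : 0 < (M : ℝ) * g ^ 2 * Real.log 2 := by positivity
    linarith

end Pool.Agent.Helper75.UD
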