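import Mathlib
import Pool.Agent.Helper75.UD.Num
import Pool.Agent.Helper72.UD.Fin

/-! The numerical lemma in the form of `Helper72.UD.Fin` -/

set_option autoImplicit false

namespace Pool.Agent.Helper75.UD

open Pool.Agent.Helper87.UD Pool.Agent.Helper72.UD

theorem numStmt : NumStmt := by
  intro C
  obtain ⟨M, g, D, B, hM, hg, hD, hB, h1, h2, h3⟩ := num C
  refine ⟨M, g, D, B, hM, hg, hD, hB, h1, ?_, ?_⟩
  · refine le_trans ?_ h2
    apply mul_le_mul_of_nonneg_right _ (Real.log_natCast_nonneg _)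
    have : (0 : ℝ) ≤ (M : ℝ) * (g : ℝ) ^ 2 * ((D : ℝ) + 2) := by positivity
    nlinarith
  · refine lt_of_lt_of_le h3 ?_
    have hl2 : 0 < Real.log 2 := Real.log_pos (by norm_num)
    have : (0 : ℝ) ≤ (M : ℝ) * (g : ℝ) ^ 2 * Real.log 2 := by positivity
    linarith

end Pool.Agent.Helper75.UD
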