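import Mathlib

/-!
# Geometry of the half-plane gadget (project UD, MP_1243c9_co)

Digits `x k` (`k : Fin m`), levels `i : Fin M` with bits `t i k`. In the plane there are points
depending on `(x, t)` and half-planes depending on a level, a digit position, a truncated vector of
digits, a threshold and the truncated bits of the lower levels, such that the half-plane named after
a point tells the bit `t i k`.
-/

set_option autoImplicit false
open Finset

namespace Pool.Agent.Helper75.UD

/-- `σ` on the positions before `k`, `0` from `k` on -/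
def truncD {m : ℕ} (k : Fin m) (σ : Fin m → ℕ) : Fin m → ℕ := fun k' => if k' < k then σ k' else 0

/-- `t` on the levels before `i`, `false` from `i` on -/
def truncT {M m : ℕ} (i : Fin M) (t : Fin M → Fin m → Bool) : Fin M → Fin m → Bool :=
  fun j => if j < i then t j else fun _ => false

/-- number with given digits, most significant digit first -/
noncomputable def val {m : ℕ} (Q : ℝ) (f : Fin m → ℝ) : ℝ := ∑ k : Fin m, f k * Q ^ (m - 1 - (k : ℕ))

theorem val_add {m : ℕ} (Q : ℝ) (f h : Fin m → ℝ) : val Q (fun k => f k + h k) = val Q f + val Q h := by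
  simp [val, add_mul, Finset.sum_add_distrib]

theorem geom_tail {n : ℕ} (i : Fin n) (q : ℝ) :
    (∑ j ∈ Finset.Ioi i, q ^ (n - 1 - (j : ℕ))) * (q - 1) = q ^ (n - 1 - (i : ℕ)) - 1 := by
  have h : ∑ j ∈ Finset.Ioi i, q ^ (n - 1 - (j : ℕ)) = ∑ r ∈ Finset.range (n - 1 - (i : ℕ)), q ^ r := by
    apply Finset.sum_nbij (fun j : Fin n => n - 1 - (j : ℕ))
    · intro j hj
      rw [Finset.mem_Ioi, Fin.lt_def] at hj
      rw [Finset.mem_range]
      have := j.isLt
      omega
    · intro j hj j' hj' h
      have h1 := j.isLt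
      have h2 := j'.isLt
      simp only at h
      apply Fin.ext
      omega
    · intro r hr
      rw [Finset.coe_range, Set.mem_Iio] at hr
      refine ⟨⟨n - 1 - r, by omega⟩, ?_, ?_⟩
      · rw [Finset.mem_coe, Finset.mem_Ioi, Fin.lt_def]
        simp only
        omega
      · simp only
        omega
    · intro j _; rfl
  rw [h, geom_sum_mul]

theorem geom_all (n : ℕ) (q : ℝ) :
    (∑ j : Fin n, q ^ (n - 1 - (j : ℕ))) * (q - 1) = q ^ n - 1 := by
  rcases Nat.eq_zero_or_pos n with h | h
  · subst h; simp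
  · obtain ⟨n, rfl⟩ : ∃ k, n = k + 1 := ⟨n - 1, by omega⟩
    rw [Fin.sum_univ_succ]
    have h1 := geom_tail (0 : Fin (n + 1)) q
    have h2 : ∑ j ∈ Finset.Ioi (0 : Fin (n + 1)), q ^ (n + 1 - 1 - (j : ℕ)) =
        ∑ i : Fin n, q ^ (n + 1 - 1 - (i.succ : ℕ)) := by
      have : Finset.Ioi (0 : Fin (n + 1)) = Finset.univ.map (Fin.succEmb n) := by
        ext j
        simp only [Finset.mem_Ioi, Finset.mem_map, Finset.mem_univ, true_and, Fin.coe_succEmb]
        constructor
        · intro hj
          exact ⟨j.pred hj.ne', Fin.succ_pred _ _⟩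
        · rintro ⟨i, rfl⟩
          exact Fin.succ_pos i
      rw [this, Finset.sum_map]
      rfl
    rw [h2] at h1
    rw [add_mul, h1]
    simp only [Fin.val_zero, Nat.add_sub_cancel, Nat.sub_zero]
    ring

section

variable (m M D : ℕ)

/-- base of the digits -/
noncomputable def QQ : ℝ := 2 * D + 2

/-- base of the levels -/
noncomputable def EE : ℝ := 2 * QQ D ^ m + 1

/-- weight of a level -/
noncomputable def ee (j : Fin M) : ℝ := EE m D ^ (M - 1 - (j : ℕ))

/-- bits as digits -/
def bt {m : ℕ} (t : Fin m → Bool) : Fin m → ℝ := fun k => if t k then 1 else 0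

/-- first coordinate of a point -/
noncomputable def px (x : Fin m → ℕ) : ℝ := val (QQ D) (fun k => (x k : ℝ))

/-- second coordinate of a point -/
noncomputable def pz (t : Fin M → Fin m → Bool) : ℝ := ∑ j : Fin M, ee m M D j * val (QQ D) (bt (t j))

/-- slope -/
noncomputable def hs (i : Fin M) : ℝ := ∑ j ∈ Finset.Ici i, ee m M D j

/-- threshold number -/
noncomputable def aa (k : Fin m) (σ : Fin m → ℕ) (θ : ℕ) : ℝ :=
  val (QQ D) (fun k' => (σ k' : ℝ)) + ((θ : ℝ) + 1 / 2) * QQ D ^ (m - 1 - (k : ℕ))

/-- offset -/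
noncomputable def ho (i : Fin M) (k : Fin m) (σ : Fin m → ℕ) (θ : ℕ) (tt : Fin M → Fin m → Bool) : ℝ :=
  hs m M D i * aa m D k σ θ + ∑ j : Fin M, ee m M D j * val (QQ D) (bt (tt j))

theorem QQ_ge : (2 : ℝ) ≤ QQ D := by
  unfold QQ
  have : (0 : ℝ) ≤ D := Nat.cast_nonneg D
  linarith

theorem one_le_QQ_pow (n : ℕ) : (1 : ℝ) ≤ QQ D ^ n := one_le_pow₀ (by linarith [QQ_ge D])

theorem EE_ge : (3 : ℝ) ≤ EE m D := by
  unfold EE
  linarith [one_le_QQ_pow D m]

theorem ee_pos (j : Fin M) : 0 < ee m M D j := pow_pos (by linarith [EE_ge m D]) _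

variable {m M D}

/-- the key sign computation at the level itself -/
theorem delta_main (x : Fin m → ℕ) (hx : ∀ k, x k < D) (t : Fin m → Bool) (k : Fin m) :
    (t k = true → 1 / 2 ≤ px m D x + val (QQ D) (bt t) -
      aa m D k (truncD k fun k' => x k' + (t k').toNat) (x k)) ∧
    (t k = false → px m D x + val (QQ D) (bt t) -
      aa m D k (truncD k fun k' => x k' + (t k').toNat) (x k) ≤ -(1 / 2)) := by
  have hQ := QQ_ge D
  set Q := QQ D with hQdef
  set K := m - 1 - (k : ℕ) with hK
  -- split the difference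
  have hsplit : px m D x + val Q (bt t) - aa m D k (truncD k fun k' => x k' + (t k').toNat) (x k) =
      (bt t k - 1 / 2) * Q ^ K + ∑ k' ∈ Finset.Ioi k, ((x k' : ℝ) + bt t k') * Q ^ (m - 1 - (k' : ℕ)) := by
    unfold px aa val
    rw [← hQdef, ← Finset.sum_add_distrib]
    have h1 : ∀ k' : Fin m, ((truncD k (fun k' => x k' + (t k').toNat) k' : ℕ) : ℝ) =
        if k' < k then (x k' : ℝ) + bt t k' else 0 := by
      intro k'
      unfold truncD bt
      by_cases h : k' < k
      · simp only [h, if_true]
        push_cast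
        cases t k' <;> simp
      · simp [h]
    simp only [h1]
    have h2 : ∀ k' : Fin m, (x k' : ℝ) * Q ^ (m - 1 - (k' : ℕ)) + bt t k' * Q ^ (m - 1 - (k' : ℕ)) =
        (if k' < k then (x k' : ℝ) + bt t k' else 0) * Q ^ (m - 1 - (k' : ℕ)) +
        (if k' = k then ((x k : ℝ) + bt t k) * Q ^ K else 0) +
        (if k' ∈ Finset.Ioi k then ((x k' : ℝ) + bt t k') * Q ^ (m - 1 - (k' : ℕ)) else 0) := by
      intro k'
      rcases lt_trichotomy k' k with h | h | h
      · have h3 : k' ≠ k := h.ne
        have h4 : k' ∉ Finset.Ioi k := by rw [Finset.mem_Ioi]; exact h.not_gt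
        simp only [h, h3, h4, if_true, if_false]
        ring
      · subst h
        simp only [lt_irrefl, if_false, if_true, Finset.mem_Ioi]
        rw [hK]; ring
      · have h3 : k' ≠ k := h.ne'
        have h4 : k' ∈ Finset.Ioi k := by rw [Finset.mem_Ioi]; exact h
        have h5 : ¬ k' < k := h.not_gt
        simp only [h5, h3, h4, if_true, if_false]
        ring
    rw [Finset.sum_congr rfl fun k' _ => h2 k', Finset.sum_add_distrib, Finset.sum_add_distrib,
      Finset.sum_ite_eq' Finset.univ k, Finset.sum_ite_mem]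
    simp only [Finset.mem_univ, if_true, Finset.univ_inter]
    ring
  have hR0 : 0 ≤ ∑ k' ∈ Finset.Ioi k, ((x k' : ℝ) + bt t k') * Q ^ (m - 1 - (k' : ℕ)) := by
    apply Finset.sum_nonneg
    intro k' _
    have : 0 ≤ bt t k' := by unfold bt; split_ifs <;> norm_num
    positivity
  have hR1 : ∑ k' ∈ Finset.Ioi k, ((x k' : ℝ) + bt t k') * Q ^ (m - 1 - (k' : ℕ)) ≤
      1 / 2 * (Q ^ K - 1) := by
    have h1 : ∑ k' ∈ Finset.Ioi k, ((x k' : ℝ) + bt t k') * Q ^ (m - 1 - (k' : ℕ)) ≤
        ∑ k' ∈ Finset.Ioi k, (D : ℝ) * Q ^ (m - 1 - (k' : ℕ)) := by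
      apply Finset.sum_le_sum
      intro k' _
      apply mul_le_mul_of_nonneg_right _ (by positivity)
      have h2 : (x k' : ℝ) + 1 ≤ D := by exact_mod_cast hx k'
      have : bt t k' ≤ 1 := by unfold bt; split_ifs <;> norm_num
      linarith
    rw [← Finset.mul_sum] at h1
    have h3 := geom_tail k Q
    rw [← hK] at h3
    have h4 : Q - 1 = 2 * D + 1 := by rw [hQdef, QQ]; ring
    have h5 : (1 : ℝ) ≤ Q ^ K := one_le_QQ_pow D K
    set S := ∑ k' ∈ Finset.Ioi k, Q ^ (m - 1 - (k' : ℕ)) with hS
    have hS0 : 0 ≤ S := Finset.sum_nonneg fun _ _ => by positivity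
    have hD : (0 : ℝ) ≤ D := Nat.cast_nonneg D
    rw [h4] at h3
    nlinarith
  have hQK : (1 : ℝ) ≤ Q ^ K := one_le_QQ_pow D K
  constructor
  · intro ht
    rw [hsplit]
    have : bt t k = 1 := by simp [bt, ht]
    rw [this]
    nlinarith
  · intro ht
    rw [hsplit]
    have : bt t k = 0 := by simp [bt, ht]
    rw [this]
    nlinarith

/-- crude bound at the other levels -/
theorem delta_other (x : Fin m → ℕ) (hx : ∀ k, x k < D) (t t' : Fin m → Bool) (k : Fin m) :
    |px m D x + val (QQ D) (bt t') - aa m D k (truncD k fun k' => x k' + (t k').toNat) (x k)| ≤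
      QQ D ^ m := by
  have hQ := QQ_ge D
  set Q := QQ D with hQdef
  have hD : (0 : ℝ) ≤ D := Nat.cast_nonneg D
  have hgeo := geom_all m Q
  have h4 : Q - 1 = 2 * D + 1 := by rw [hQdef, QQ]; ring
  have hall0 : 0 ≤ ∑ j : Fin m, Q ^ (m - 1 - (j : ℕ)) := Finset.sum_nonneg fun _ _ => by positivity
  have hbound : (D + 1 : ℝ) * ∑ j : Fin m, Q ^ (m - 1 - (j : ℕ)) ≤ Q ^ m := by
    rw [h4] at hgeo
    rcases Nat.eq_zero_or_pos D with h0 | h0
    · exfalso
      have := hx k
      omega
    · have h1 : (1 : ℝ) ≤ D := by exact_mod_cast h0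
      nlinarith
  have hb1 : ∀ (s : Fin m → Bool) (k' : Fin m), 0 ≤ bt s k' ∧ bt s k' ≤ 1 := by
    intro s k'
    unfold bt
    split_ifs <;> norm_num
  have hx1 : ∀ k', (x k' : ℝ) + 1 ≤ D := fun k' => by exact_mod_cast hx k'
  -- A = X + τ
  have hA0 : 0 ≤ px m D x + val Q (bt t') := by
    unfold px val
    apply add_nonneg
    · exact Finset.sum_nonneg fun k' _ => by positivity
    · exact Finset.sum_nonneg fun k' _ => mul_nonneg (hb1 t' k').1 (by positivity)
  have hA1 : px m D x + val Q (bt t') ≤ Q ^ m := by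
    refine le_trans ?_ hbound
    unfold px
    rw [← val_add, val, Finset.mul_sum]
    apply Finset.sum_le_sum
    intro k' _
    apply mul_le_mul_of_nonneg_right _ (by positivity)
    linarith [hx1 k', (hb1 t' k').2]
  have hB0 : 0 ≤ aa m D k (truncD k fun k' => x k' + (t k').toNat) (x k) := by
    unfold aa val
    apply add_nonneg
    · exact Finset.sum_nonneg fun k' _ => by positivity
    · positivity
  have hB1 : aa m D k (truncD k fun k' => x k' + (t k').toNat) (x k) ≤ Q ^ m := by
    refine le_trans ?_ hbound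
    unfold aa val
    have h5 : ((x k : ℝ) + 1 / 2) * Q ^ (m - 1 - (k : ℕ)) =
        ∑ k' : Fin m, (if k' = k then ((x k : ℝ) + 1 / 2) * Q ^ (m - 1 - (k : ℕ)) else 0) := by
      rw [Finset.sum_ite_eq' Finset.univ k]; simp
    rw [← hQdef, h5, ← Finset.sum_add_distrib, Finset.mul_sum]
    apply Finset.sum_le_sum
    intro k' _
    by_cases h : k' = k
    · subst h
      simp only [truncD, lt_irrefl, if_false, if_true, Nat.cast_zero, zero_mul, zero_add]
      apply mul_le_mul_of_nonneg_right _ (by positivity)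
      linarith [hx1 k']
    · simp only [h, if_false, add_zero]
      apply mul_le_mul_of_nonneg_right _ (by positivity)
      unfold truncD
      split_ifs
      · push_cast
        have : (((t k').toNat : ℕ) : ℝ) ≤ 1 := by cases t k' <;> simp
        linarith [hx1 k']
      · push_cast; linarith
  rw [abs_le]
  constructor <;> linarith

/-- GEOMETRY: the half-plane named after the point `(x, t)` at `(i, k)` contains it iff the bit
`t i k` is `false`. -/
theorem geo (x : Fin m → ℕ) (hx : ∀ k, x k < D) (t : Fin M → Fin m → Bool) (i : Fin M) (k : Fin m) :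
    hs m M D i * px m D x + pz m M D t ≤
      ho m M D i k (truncD k fun k' => x k' + (t i k').toNat) (x k) (truncT i t) ↔ t i k = false := by
  set a := aa m D k (truncD k fun k' => x k' + (t i k').toNat) (x k) with ha
  have hE := EE_ge m D
  set Δ : Fin M → ℝ := fun j => px m D x + val (QQ D) (bt (t j)) - a with hΔ
  -- the difference
  have hdiff : hs m M D i * px m D x + pz m M D t -
      ho m M D i k (truncD k fun k' => x k' + (t i k').toNat) (x k) (truncT i t) =
      ∑ j ∈ Finset.Ici i, ee m M D j * Δ j := by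
    unfold ho pz
    rw [← ha]
    have h1 : ∑ j : Fin M, ee m M D j * val (QQ D) (bt (t j)) -
        ∑ j : Fin M, ee m M D j * val (QQ D) (bt (truncT i t j)) =
        ∑ j ∈ Finset.Ici i, ee m M D j * val (QQ D) (bt (t j)) := by
      rw [← Finset.sum_sub_distrib]
      have h2 : ∀ j : Fin M, ee m M D j * val (QQ D) (bt (t j)) -
          ee m M D j * val (QQ D) (bt (truncT i t j)) =
          if j ∈ Finset.Ici i then ee m M D j * val (QQ D) (bt (t j)) else 0 := by
        intro j
        by_cases h : j < i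
        · have h3 : j ∉ Finset.Ici i := by rw [Finset.mem_Ici]; exact not_le.2 h
          simp [truncT, h, h3]
        · have h3 : j ∈ Finset.Ici i := by rw [Finset.mem_Ici]; exact not_lt.1 h
          have h4 : val (QQ D) (bt (truncT i t j)) = 0 := by
            simp [truncT, h, val, bt]
          rw [h4]
          simp [h3]
      rw [Finset.sum_congr rfl fun j _ => h2 j, Finset.sum_ite_mem, Finset.univ_inter]
    have h5 : ∑ j ∈ Finset.Ici i, ee m M D j * Δ j =
        ∑ j ∈ Finset.Ici i, ee m M D j * val (QQ D) (bt (t j)) +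
          hs m M D i * (px m D x - a) := by
      unfold hs
      rw [Finset.sum_mul, ← Finset.sum_add_distrib]
      apply Finset.sum_congr rfl
      intro j _
      rw [hΔ]
      ring
    rw [h5, ← h1]
    ring
  have hsplit : ∑ j ∈ Finset.Ici i, ee m M D j * Δ j =
      ee m M D i * Δ i + ∑ j ∈ Finset.Ioi i, ee m M D j * Δ j := by
    have : Finset.Ici i = insert i (Finset.Ioi i) := by
      ext j
      simp only [Finset.mem_Ici, Finset.mem_insert, Finset.mem_Ioi]
      constructor
      · intro h
        rcases h.eq_or_lt with h | h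
        · exact Or.inl h.symm
        · exact Or.inr h
      · rintro (h | h)
        · exact h.ge
        · exact h.le
    rw [this, Finset.sum_insert (by simp)]
  have htail : |∑ j ∈ Finset.Ioi i, ee m M D j * Δ j| ≤ 1 / 2 * (ee m M D i - 1) := by
    calc |∑ j ∈ Finset.Ioi i, ee m M D j * Δ j| ≤ ∑ j ∈ Finset.Ioi i, |ee m M D j * Δ j| :=
          Finset.abs_sum_le_sum_abs _ _
      _ ≤ ∑ j ∈ Finset.Ioi i, ee m M D j * QQ D ^ m := by
          apply Finset.sum_le_sum
          intro j _
          rw [abs_mul, abs_of_pos (ee_pos m M D j)]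
          exact mul_le_mul_of_nonneg_left (delta_other x hx (t i) (t j) k) (ee_pos m M D j).le
      _ = (∑ j ∈ Finset.Ioi i, ee m M D j) * QQ D ^ m := by rw [Finset.sum_mul]
      _ = 1 / 2 * (ee m M D i - 1) := by
          have h1 := geom_tail i (EE m D)
          have h2 : EE m D - 1 = 2 * QQ D ^ m := by unfold EE; ring
          rw [h2] at h1
          unfold ee
          linarith
  have hmain := delta_main x hx (t i) k
  rw [← ha] at hmain
  have hei := ee_pos m M D i
  have habs := abs_le.1 htail
  constructor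
  · intro h
    by_contra hc
    have ht : t i k = true := by simpa using hc
    have h1 : 1 / 2 ≤ Δ i := hmain.1 ht
    have h2 : ee m M D i * (1 / 2) ≤ ee m M D i * Δ i := mul_le_mul_of_nonneg_left h1 hei.le
    have h3 : ∑ j ∈ Finset.Ici i, ee m M D j * Δ j ≤ 0 := by rw [← hdiff]; linarith
    rw [hsplit] at h3
    linarith [habs.1]
  · intro ht
    have h1 : Δ i ≤ -(1 / 2) := hmain.2 ht
    have h2 : ee m M D i * Δ i ≤ ee m M D i * (-(1 / 2)) := mul_le_mul_of_nonneg_left h1 hei.le
    have h3 : ∑ j ∈ Finset.Ici i, ee m M D j * Δ j ≤ 0 := by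
      rw [hsplit]
      linarith [habs.2]
    rw [← hdiff] at h3
    linarith

end

end Pool.Agent.Helper75.UD
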