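import Mathlib
import Pool.Agent.Helper72.ELRHalf
import Pool.Agent.Helper75.UD.Geo

/-!
# From an efficient local representation to labels of points and names (project UD, MP_1243c9_co)
-/

set_option autoImplicit false
open Finset

namespace Pool.Agent.Helper75.UD

open Pool.Agent.Helper72.ELR

/-- tables: one `B × B` table of bits for every level and every digit position -/
abbrev Tab (g M B : ℕ) := Fin M → Fin (g * g) → Fin B → Fin B → Bool

/-- coordinates: `b i u` -/
abbrev Coord (g M B : ℕ) := Fin M → Fin g → Fin B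

/-- points `(x, b, b')` -/
abbrev Pt (g M D B : ℕ) := (Fin (g * g) → Fin D) × Coord g M B × Coord g M B

/-- names of half-planes `(i, k, β, β', σ, θ)` -/
abbrev Nm (g M D B : ℕ) :=
  Fin M × Fin (g * g) × Coord g M B × Coord g M B × (Fin (g * g) → Fin (D + 1)) × Fin D

/-- row of a position -/
def row {g : ℕ} (k : Fin (g * g)) : Fin g := (finProdFinEquiv.symm k).1

/-- column of a position -/
def col {g : ℕ} (k : Fin (g * g)) : Fin g := (finProdFinEquiv.symm k).2

/-- the bit `t^i_k` -/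
def bit {g M B : ℕ} (T : Tab g M B) (b b' : Coord g M B) (i : Fin M) (k : Fin (g * g)) : Bool :=
  T i k (b i (row k)) (b' i (col k))

/-- coordinates of the levels before `i` -/
def truncC {g M B : ℕ} [NeZero B] (i : Fin M) (b : Coord g M B) : Coord g M B :=
  fun j => if j < i then b j else fun _ => 0

/-- digits of `s = x + t` before position `k` -/
def sig {g M D B : ℕ} (T : Tab g M B) (p : Pt g M D B) (i : Fin M) (k : Fin (g * g)) :
    Fin (g * g) → Fin (D + 1) := fun k' =>
  if k' < k then ⟨(p.1 k' : ℕ) + (bit T p.2.1 p.2.2 i k').toNat, by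
    have h1 := (p.1 k').isLt
    have h2 := Bool.toNat_le (bit T p.2.1 p.2.2 i k')
    omega⟩ else 0

/-- the name `(i, k, β_{<i}, β'_{<i}, s^i_{<k}, θ)` taken from a point -/
def nameθ {g M D B : ℕ} [NeZero B] (T : Tab g M B) (p : Pt g M D B) (i : Fin M) (k : Fin (g * g))
    (θ : Fin D) : Nm g M D B :=
  (i, k, truncC i p.2.1, truncC i p.2.2, sig T p i k, θ)

/-- the name of the half-plane which tells the bit `t^i_k` of `p` -/
def name {g M D B : ℕ} [NeZero B] (T : Tab g M B) (p : Pt g M D B) (i : Fin M) (k : Fin (g * g)) :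
    Nm g M D B := nameθ T p i k (p.1 k)

/-- the point of the plane -/
noncomputable def ptv {g M D B : ℕ} (T : Tab g M B) (p : Pt g M D B) : EuclideanSpace ℝ (Fin 2) :=
  WithLp.toLp 2 ![px (g * g) D (fun k => (p.1 k : ℕ)), pz (g * g) M D (bit T p.2.1 p.2.2)]

/-- the normal vector of the half-plane -/
noncomputable def nmv {g M D B : ℕ} (h : Nm g M D B) : EuclideanSpace ℝ (Fin 2) :=
  WithLp.toLp 2 ![hs (g * g) M D h.1, 1]

/-- the offset of the half-plane -/
noncomputable def nmo {g M D B : ℕ} (T : Tab g M B) (h : Nm g M D B) : ℝ :=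
  ho (g * g) M D h.1 h.2.1 (fun k' => (h.2.2.2.2.1 k' : ℕ)) (h.2.2.2.2.2 : ℕ)
    (truncT h.1 (bit T h.2.2.1 h.2.2.2.1))

theorem inner_le_iff {g M D B : ℕ} [NeZero B] (T : Tab g M B) (p : Pt g M D B) (i : Fin M)
    (k : Fin (g * g)) :
    inner ℝ (nmv (name T p i k)) (ptv T p) ≤ nmo T (name T p i k) ↔
      bit T p.2.1 p.2.2 i k = false := by
  have h1 : inner ℝ (nmv (name T p i k)) (ptv T p) =
      hs (g * g) M D i * px (g * g) D (fun k => (p.1 k : ℕ)) + pz (g * g) M D (bit T p.2.1 p.2.2) := by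
    simp only [nmv, ptv, name, nameθ, PiLp.inner_apply, Fin.sum_univ_two, RCLike.inner_apply,
      conj_trivial, Matrix.cons_val_zero, Matrix.cons_val_one]
    ring
  have h2 : truncT i (bit T (truncC i p.2.1) (truncC i p.2.2)) = truncT i (bit T p.2.1 p.2.2) := by
    funext j k'
    unfold truncT
    by_cases hj : j < i
    · simp only [hj, if_true, bit, truncC]
    · simp only [hj, if_false]
  have h3 : (fun k' => ((sig T p i k k' : Fin (D + 1)) : ℕ)) =
      truncD k (fun k' => (p.1 k' : ℕ) + (bit T p.2.1 p.2.2 i k').toNat) := by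
    funext k'
    unfold sig truncD
    by_cases hk : k' < k
    · simp only [hk, if_true]
    · simp only [hk, if_false, Fin.val_zero]
  have h4 : nmo T (name T p i k) = ho (g * g) M D i k
      (truncD k (fun k' => (p.1 k' : ℕ) + (bit T p.2.1 p.2.2 i k').toNat)) (p.1 k)
      (truncT i (bit T p.2.1 p.2.2)) := by
    rw [← h2, ← h3]
    rfl
  rw [h1, h4]
  exact geo (fun k => (p.1 k : ℕ)) (fun k => (p.1 k).isLt) (bit T p.2.1 p.2.2) i k

/-- number of vertices used -/
def nV (g M D B : ℕ) : ℕ := Fintype.card (Pt g M D B) + Fintype.card (Nm g M D B)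

/-- FRAME: an efficient local representation of the point / half-plane graphs gives, for all tables,
labels of the points and of the names with a universal decoder. -/
theorem scheme (h : HasELR (PointHalfspace 2)) :
    ∃ (A : ℕ → ℕ → Prop) (C : ℕ), ∀ (g M D B : ℕ) [NeZero B] (T : Tab g M B),
      ∃ (lab : Pt g M D B → ℕ) (lab' : Nm g M D B → ℕ),
        (∀ p, lab p ≤ (nV g M D B + 1) ^ C) ∧ (∀ w, lab' w ≤ (nV g M D B + 1) ^ C) ∧
        ∀ p i k, A (lab p) (lab' (name T p i k)) ↔ bit T p.2.1 p.2.2 i k = false := by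
  obtain ⟨A, C, hA⟩ := labels_of_pointHalfspace h
  refine ⟨A, C, fun g M D B _ T => ?_⟩
  have hcard : Fintype.card (Pt g M D B ⊕ Nm g M D B) = nV g M D B := by
    rw [Fintype.card_sum]; rfl
  let e : Fin (nV g M D B) ≃ Pt g M D B ⊕ Nm g M D B :=
    (finCongr hcard.symm).trans (Fintype.equivFin (Pt g M D B ⊕ Nm g M D B)).symm
  obtain ⟨l, l', hl, hl', hadj⟩ := hA (nV g M D B)
    (fun v => Sum.elim (ptv T) (fun _ => 0) (e v)) (fun v => Sum.elim (fun _ => 0) nmv (e v))
    (fun v => Sum.elim (fun _ => 0) (nmo T) (e v))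
  refine ⟨fun p => l (e.symm (Sum.inl p)), fun w => l' (e.symm (Sum.inr w)), fun p => hl _,
    fun w => hl' _, fun p i k => ?_⟩
  rw [hadj]
  simp only [Equiv.apply_symm_apply, Sum.elim_inl, Sum.elim_inr]
  exact inner_le_iff T p i k

/-- the number of vertices -/
theorem nV_le (g M D B : ℕ) (hD : 1 ≤ D) (hM : 1 ≤ M) (hg : 1 ≤ g) :
    nV g M D B ≤ 2 * (M * (g * g) * (D + 1) ^ (g * g + 1) * B ^ (2 * (M * g))) := by
  unfold nV
  simp only [Fintype.card_prod, Fintype.card_pi, Fintype.card_fin, Finset.prod_const,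
    Finset.card_univ]
  have hB : ((B ^ g) ^ M) * ((B ^ g) ^ M) = B ^ (2 * (M * g)) := by
    rw [← pow_mul, ← pow_add]; congr 1; ring
  have h1 : D ^ (g * g) * ((B ^ g) ^ M * (B ^ g) ^ M) ≤
      M * (g * g) * (D + 1) ^ (g * g + 1) * B ^ (2 * (M * g)) := by
    rw [hB]
    apply Nat.mul_le_mul_right
    have h2 : D ^ (g * g) ≤ (D + 1) ^ (g * g + 1) :=
      (Nat.pow_le_pow_left (by omega) _).trans (Nat.pow_le_pow_right (by omega) (by omega))
    have h3 : 1 ≤ M * (g * g) := Nat.one_le_iff_ne_zero.2 (by positivity)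
    calc D ^ (g * g) ≤ 1 * (D + 1) ^ (g * g + 1) := by rw [one_mul]; exact h2
      _ ≤ _ := Nat.mul_le_mul_right _ h3
  have h4 : M * (g * g * ((B ^ g) ^ M * ((B ^ g) ^ M * ((D + 1) ^ (g * g) * D)))) ≤
      M * (g * g) * (D + 1) ^ (g * g + 1) * B ^ (2 * (M * g)) := by
    have h5 : M * (g * g * ((B ^ g) ^ M * ((B ^ g) ^ M * ((D + 1) ^ (g * g) * D)))) =
        M * (g * g) * ((D + 1) ^ (g * g) * D) * ((B ^ g) ^ M * (B ^ g) ^ M) := by ring
    rw [h5, hB]
    apply Nat.mul_le_mul_right
    apply Nat.mul_le_mul_left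
    rw [pow_succ]
    exact Nat.mul_le_mul_left _ (by omega)
  omega

end Pool.Agent.Helper75.UD
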