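import Mathlib
import Pool.Agent.Helper75.UD.Num
import Pool.Agent.Helper72.UD.Quant

/-! The numerical lemma for labels of `(log n / log log n)^(3/2) / 1000` bits (project UD). -/

set_option autoImplicit false

namespace Pool.Agent.Helper75.UD

open Pool.Agent.Helper87.UD Pool.Agent.Helper72.UD Pool.Agent.Helper72.ELR Pool.Agent.Helper69.LB
open Filter

/-- the number of names for `g = M = 2 ^ h`, `D = 2 g ^ 2`, `B = 2 ^ (8 h + 6)` -/
noncomputable def nn (h : ℕ) : ℕ :=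
  Fintype.card (Pt (2 ^ h) (2 ^ h) (2 * (2 ^ h * 2 ^ h)) (2 ^ (8 * h + 6))) +
    Fintype.card (Nm (2 ^ h) (2 ^ h) (2 * (2 ^ h * 2 ^ h)) (2 ^ (8 * h + 6)))

theorem le_nn (h : ℕ) : 2 ^ ((2 * h + 1) * (2 ^ h * 2 ^ h)) ≤ nn h := by
  unfold nn
  refine le_trans ?_ (Nat.le_add_right _ _)
  simp only [Fintype.card_prod, Fintype.card_pi, Fintype.card_fin, Finset.prod_const,
    Finset.card_univ]
  have h1 : 2 * (2 ^ h * 2 ^ h) = 2 ^ (2 * h + 1) := by rw [pow_succ, two_mul h, pow_add]; ring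
  have h2 : ((2 * (2 ^ h * 2 ^ h)) ^ 2 ^ h) ^ 2 ^ h = 2 ^ ((2 * h + 1) * (2 ^ h * 2 ^ h)) := by
    rw [h1, ← pow_mul, ← pow_mul]
  rw [h2]
  exact Nat.le_mul_of_pos_right _ (by positivity)

theorem nn_le (h : ℕ) : nn h ≤ 2 ^ (23 * ((h + 1) * (2 ^ h * 2 ^ h))) := by
  have hg1 : 1 ≤ 2 ^ h := Nat.one_le_two_pow
  have hgg : 1 ≤ 2 ^ h * 2 ^ h := Nat.mul_pos hg1 hg1
  have h1 := card_le (2 ^ h) (2 ^ h) (2 * (2 ^ h * 2 ^ h)) (2 ^ (8 * h + 6)) (by omega) hg1 hg1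
  refine h1.trans ?_
  have hD : 2 * (2 ^ h * 2 ^ h) + 2 ≤ 2 ^ (2 * h + 2) := by
    have : 2 ^ (2 * h + 2) = 4 * (2 ^ h * 2 ^ h) := by rw [pow_add, two_mul h, pow_add]; ring
    rw [this]; omega
  have h2 : (2 * (2 ^ h * 2 ^ h) + 2) ^ (2 ^ h * 2 ^ h + 1) ≤
      2 ^ ((2 * h + 2) * (2 ^ h * 2 ^ h + 1)) := by
    rw [pow_mul]; exact Nat.pow_le_pow_left hD _
  have h3 : (2 ^ (8 * h + 6)) ^ (2 * (2 ^ h * 2 ^ h)) = 2 ^ ((8 * h + 6) * (2 * (2 ^ h * 2 ^ h))) := by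
    rw [← pow_mul]
  have h4 : 2 * (2 ^ h * (2 ^ h * 2 ^ h)) = 2 ^ (3 * h + 1) := by
    rw [pow_succ, show 3 * h = h + (h + h) by ring, pow_add, pow_add]; ring
  rw [h3, h4]
  calc 2 ^ (3 * h + 1) * ((2 * (2 ^ h * 2 ^ h) + 2) ^ (2 ^ h * 2 ^ h + 1) *
        2 ^ ((8 * h + 6) * (2 * (2 ^ h * 2 ^ h)))) ≤
      2 ^ (3 * h + 1) * (2 ^ ((2 * h + 2) * (2 ^ h * 2 ^ h + 1)) *
        2 ^ ((8 * h + 6) * (2 * (2 ^ h * 2 ^ h)))) := by gcongr
    _ = 2 ^ ((3 * h + 1) + ((2 * h + 2) * (2 ^ h * 2 ^ h + 1) +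
        (8 * h + 6) * (2 * (2 ^ h * 2 ^ h)))) := by
        rw [pow_add 2 (3 * h + 1), pow_add 2 ((2 * h + 2) * (2 ^ h * 2 ^ h + 1))]
    _ ≤ _ := by
        apply Nat.pow_le_pow_right (by norm_num)
        generalize 2 ^ h * 2 ^ h = G at *
        nlinarith

theorem num_quant {f : ℕ → ℝ}
    (hf : ∀ᶠ n : ℕ in atTop, f n ≤ 1 / 1000 * (Real.log n / Real.log (Real.log n)) ^ (3 / 2 : ℝ)) :
    NumF (fun n => max (f n) 0) := by
  obtain ⟨N0, hN0⟩ := eventually_atTop.1 hf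
  obtain ⟨h, hh⟩ : ∃ h, h = N0 + 1 := ⟨_, rfl⟩
  have hh1 : 1 ≤ h := by omega
  have hg1 : 1 ≤ 2 ^ h := Nat.one_le_two_pow
  have hgg : 1 ≤ 2 ^ h * 2 ^ h := Nat.mul_pos hg1 hg1
  set n := nn h with hn
  -- real versions
  set G : ℝ := (2 : ℝ) ^ h * 2 ^ h with hG
  have hG4 : G = 4 ^ h := by rw [hG, ← mul_pow]; norm_num
  have hG1 : (4 : ℝ) ≤ G := by
    rw [hG4]
    calc (4 : ℝ) = 4 ^ 1 := by norm_num
      _ ≤ 4 ^ h := pow_le_pow_right₀ (by norm_num) hh1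
  have hhR : (1 : ℝ) ≤ h := by exact_mod_cast hh1
  have hl2 : (0.6931 : ℝ) < Real.log 2 := by linarith [Real.log_two_gt_d9]
  have hl2' : Real.log 2 < 0.6932 := by linarith [Real.log_two_lt_d9]
  have hnlow : (2 : ℝ) ^ ((2 * h + 1) * (2 ^ h * 2 ^ h)) ≤ n := by exact_mod_cast le_nn h
  have hnup : (n : ℝ) ≤ (2 : ℝ) ^ (23 * ((h + 1) * (2 ^ h * 2 ^ h))) := by exact_mod_cast nn_le h
  have hnpos : (0 : ℝ) < n := lt_of_lt_of_le (by positivity) hnlow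
  have hlogup : Real.log n ≤ 23 * ((h + 1) * G) := by
    calc Real.log n ≤ Real.log ((2 : ℝ) ^ (23 * ((h + 1) * (2 ^ h * 2 ^ h)))) :=
          Real.log_le_log hnpos hnup
      _ = (23 * ((h + 1) * G)) * Real.log 2 := by rw [Real.log_pow]; push_cast; ring
      _ ≤ (23 * ((h + 1) * G)) * 1 := by
          apply mul_le_mul_of_nonneg_left (by linarith) (by positivity)
      _ = _ := mul_one _
  have hloglow : G ≤ Real.log n := by
    have hc : 1 ≤ (2 * (h : ℝ) + 1) * Real.log 2 := by nlinarith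
    calc G = G * 1 := (mul_one G).symm
      _ ≤ G * ((2 * (h : ℝ) + 1) * Real.log 2) := mul_le_mul_of_nonneg_left hc (by linarith)
      _ = ((2 * h + 1) * G) * Real.log 2 := by ring
      _ = Real.log ((2 : ℝ) ^ ((2 * h + 1) * (2 ^ h * 2 ^ h))) := by
          rw [Real.log_pow]; push_cast; ring
      _ ≤ Real.log n := Real.log_le_log (by positivity) hnlow
  have hloglog : (h : ℝ) ≤ Real.log (Real.log n) := by
    calc (h : ℝ) ≤ h * Real.log 4 := by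
          have : Real.log 4 = 2 * Real.log 2 := by
            rw [show (4 : ℝ) = 2 ^ 2 by norm_num, Real.log_pow]; norm_num
          rw [this]; nlinarith
      _ = Real.log G := by rw [hG4, Real.log_pow]
      _ ≤ Real.log (Real.log n) := Real.log_le_log (by linarith) hloglow
  have hratio : Real.log n / Real.log (Real.log n) ≤ 49 * G := by
    rw [div_le_iff₀ (by linarith)]
    nlinarith
  have hratio0 : 0 ≤ Real.log n / Real.log (Real.log n) :=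
    div_nonneg (by linarith) (by linarith)
  have h8 : (49 * G) ^ (3 / 2 : ℝ) = 343 * 8 ^ h := by
    have e1 : 49 * G = (7 * 2 ^ h) ^ (2 : ℕ) := by rw [hG]; ring
    have e2 : (0 : ℝ) ≤ 7 * 2 ^ h := by positivity
    rw [e1, ← Real.rpow_natCast, ← Real.rpow_mul e2]
    have e3 : ((2 : ℕ) : ℝ) * (3 / 2) = ((3 : ℕ) : ℝ) := by norm_num
    rw [e3, Real.rpow_natCast, mul_pow, ← pow_mul, mul_comm h 3, pow_mul]
    norm_num
  have hpow : (Real.log n / Real.log (Real.log n)) ^ (3 / 2 : ℝ) ≤ 343 * 8 ^ h := by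
    rw [← h8]
    exact Real.rpow_le_rpow hratio0 hratio (by norm_num)
  have hnN0 : N0 ≤ n := by
    have h1 := le_nn h
    have h2 : 2 ^ h ≤ 2 ^ ((2 * h + 1) * (2 ^ h * 2 ^ h)) := by
      apply Nat.pow_le_pow_right (by norm_num)
      nlinarith
    have h3 : h < 2 ^ h := Nat.lt_two_pow_self
    omega
  have hfn : f n ≤ 343 / 1000 * 8 ^ h := by
    calc f n ≤ 1 / 1000 * (Real.log n / Real.log (Real.log n)) ^ (3 / 2 : ℝ) := hN0 n hnN0
      _ ≤ 1 / 1000 * (343 * 8 ^ h) := mul_le_mul_of_nonneg_left hpow (by norm_num)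
      _ = _ := by ring
  have h8pos : (8 : ℝ) ≤ 8 ^ h := by
    calc (8 : ℝ) = 8 ^ 1 := by norm_num
      _ ≤ 8 ^ h := pow_le_pow_right₀ (by norm_num) hh1
  have hmax : max (f n) 0 ≤ 343 / 1000 * 8 ^ h := max_le hfn (by positivity)
  have hR : ((2 ^ h : ℕ) : ℝ) * ((2 ^ h : ℕ) : ℝ) ^ 2 = 8 ^ h := by
    push_cast
    rw [← pow_succ', ← pow_mul, mul_comm h 3, pow_mul]
    norm_num
  refine ⟨2 ^ h, 2 ^ h, 2 * (2 ^ h * 2 ^ h), 2 ^ (8 * h + 6), by positivity, by positivity,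
    by positivity, by positivity, by rw [sq], le_max_right _ _, ?_, ?_⟩
  · change 24 * ((2 ^ h : ℕ) : ℝ) * ((2 ^ h : ℕ) : ℝ) ^ 2 * (((2 * (2 ^ h * 2 ^ h) : ℕ) : ℝ) + 2) *
      (max (f n) 0 + 1) ≤ ((2 ^ (8 * h + 6) : ℕ) : ℝ)
    have e1 : 24 * ((2 ^ h : ℕ) : ℝ) * ((2 ^ h : ℕ) : ℝ) ^ 2 = 24 * 8 ^ h := by rw [mul_assoc, hR]
    have e2 : (((2 * (2 ^ h * 2 ^ h) : ℕ) : ℝ) + 2) = 2 * G + 2 := by push_cast; rw [hG]
    have e3 : ((2 ^ (8 * h + 6) : ℕ) : ℝ) = 64 * (8 ^ h * (G * 8 ^ h)) := by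
      push_cast
      rw [pow_add, hG4, ← mul_pow, ← mul_pow]
      rw [show (8 : ℝ) * (4 * 8) = 2 ^ 8 by norm_num, ← pow_mul]
      norm_num
      ring
    rw [e1, e2, e3]
    have e4 : max (f n) 0 + 1 ≤ 1 / 2 * 8 ^ h := by linarith
    calc 24 * 8 ^ h * (2 * G + 2) * (max (f n) 0 + 1) ≤ 24 * 8 ^ h * (2 * G + 2) * (1 / 2 * 8 ^ h) :=
          mul_le_mul_of_nonneg_left e4 (by positivity)
      _ ≤ 24 * 8 ^ h * (4 * G) * (1 / 2 * 8 ^ h) := by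
          apply mul_le_mul_of_nonneg_right _ (by positivity)
          apply mul_le_mul_of_nonneg_left (by linarith) (by positivity)
      _ = 48 * (8 ^ h * (G * 8 ^ h)) := by ring
      _ ≤ _ := by
          have : 0 ≤ (8 : ℝ) ^ h * (G * 8 ^ h) := by positivity
          linarith
  · change max (f n) 0 + 1 < ((2 ^ h : ℕ) : ℝ) * ((2 ^ h : ℕ) : ℝ) ^ 2 / 2
    rw [hR]
    linarith

/-- labels with `f n` bits are labels with `f' n ≥ f n` bits -/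
theorem hasLabels_mono {P : ∀ n : ℕ, SimpleGraph (Fin n) → Prop} {f f' : ℕ → ℝ} (hff : ∀ n, f n ≤ f' n)
    (h : HasLabels P f) : HasLabels P f' := by
  obtain ⟨A, hA, hl⟩ := h
  refine ⟨A, hA, fun n G hG => ?_⟩
  obtain ⟨l, h1, h2⟩ := hl n G hG
  exact ⟨l, fun v => (h1 v).trans_le (Real.rpow_le_rpow_of_exponent_le (by norm_num) (hff n)), h2⟩

/-- QUANTITATIVE FINAL from the core inequality: in dimension `≥ 2` labels need more than
`(log n / log log n)^(3/2) / 1000` bits for infinitely many `n`. -/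
theorem final_quant' (core : CoreStmt) {f : ℕ → ℝ}
    (hf : ∀ᶠ n : ℕ in atTop, f n ≤ 1 / 1000 * (Real.log n / Real.log (Real.log n)) ^ (3 / 2 : ℝ))
    (d : ℕ) (hd : 2 ≤ d) : ¬ HasLabels (UnitBall d) f := fun h =>
  final_quant core (num_quant hf) d hd (hasLabels_mono (fun _ => le_max_left _ _) h)

end Pool.Agent.Helper75.UD
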